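import Pool.Agent.H874R3.MQ.Stmts

/-! Task OUT of project H874-MQ. -/

set_option autoImplicit false

open Real Set MeasureTheory
open scoped ContDiff

namespace Pool.Agent.H293R3.MQ

open Pool.Agent.H874R3.MQ

lemma cont_w {w : ℝ → ℝ} (hw : ContinuousOn w (Iio 1)) {s : ℝ} (hs : s < 1) {Y : Type*}
    [TopologicalSpace Y] {h : Y → ℝ} (hh : Continuous h) (h0 : ∀ y, 0 ≤ h y) :
    Continuous (fun y => w (s - h y)) := by
  refine hw.comp_continuous (by fun_prop) (fun y => ?_)
  have := h0 y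
  simp only [mem_Iio]
  linarith

lemma psi_zero {q : ℝ} (hq : 1 / 2 ≤ q) : psi q = 0 := by
  simp [psi, chi, Real.smoothTransition.zero_of_nonpos (by linarith : 2 - 4 * q ≤ 0)]

lemma circle_psi (hpc : Continuous psi) (z : ℝ) :
    ∫ θ in (-π)..π, psi (z * cos θ ^ 2) = 4 * Psi z := by
  have hc : Continuous fun θ => psi (z * cos θ ^ 2) := by fun_prop
  have hI : ∀ a b, IntervalIntegrable (fun θ => psi (z * cos θ ^ 2)) volume a b :=
    fun a b => hc.intervalIntegrable a b
  have h1 : ∫ θ in (-π)..0, psi (z * cos θ ^ 2) = ∫ θ in (0:ℝ)..π, psi (z * cos θ ^ 2) := by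
    have := intervalIntegral.integral_comp_neg (a := 0) (b := π) (fun θ => psi (z * cos θ ^ 2))
    simpa using this.symm
  have h2 : ∫ θ in (π/2)..π, psi (z * cos θ ^ 2) =
      ∫ θ in (0:ℝ)..(π/2), psi (z * cos θ ^ 2) := by
    have := intervalIntegral.integral_comp_sub_left (a := 0) (b := π/2)
      (fun θ => psi (z * cos θ ^ 2)) π
    have e : π - π / 2 = π / 2 := by ring
    simpa [e] using this.symm
  rw [← intervalIntegral.integral_add_adjacent_intervals (hI (-π) 0) (hI 0 π), h1,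
    ← intervalIntegral.integral_add_adjacent_intervals (hI 0 (π/2)) (hI (π/2) π), h2, Psi]
  ring

/-- the substitution `a = √(2P) sin (t/2)` -/
lemma subst (hpc : Continuous psi) {w : ℝ → ℝ} (hw : ContinuousOn w (Iio 1)) {P s : ℝ}
    (hP : 0 < P) (hs : s < 1) :
    ∫ t in (0:ℝ)..π, GG w (s - P * (1 - cos t)) * (cos t * chi (sin (t / 2) ^ 2)) =
      2 / √(2 * P) * ∫ a in (0:ℝ)..√(2 * P), GG w (s - a ^ 2) * psi (a ^ 2 / (2 * P)) := by
  have hGc : Continuous fun a : ℝ => GG w (s - a ^ 2) := by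
    unfold GG
    have : Continuous (Function.uncurry fun a v : ℝ => w (s - a ^ 2 - v ^ 2)) := by
      have := cont_w hw hs (h := fun p : ℝ × ℝ => p.1 ^ 2 + p.2 ^ 2) (by fun_prop)
        (fun p => by positivity)
      refine this.congr fun p => ?_
      simp only [Function.uncurry]
      congr 1
      ring
    exact intervalIntegral.continuous_parametric_intervalIntegral_of_continuous' this (-1) 1
  have hg : Continuous fun a : ℝ => GG w (s - a ^ 2) * psi (a ^ 2 / (2 * P)) :=
    hGc.mul (by fun_prop)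
  have hq : 0 < √(2 * P) := Real.sqrt_pos.2 (by positivity)
  have hq2 : √(2 * P) ^ 2 = 2 * P := Real.sq_sqrt (by positivity)
  have key := intervalIntegral.integral_comp_mul_deriv (a := 0) (b := π)
    (f := fun t => √(2 * P) * sin (t / 2)) (f' := fun t => √(2 * P) * (cos (t / 2) * (1 / 2)))
    (g := fun a : ℝ => GG w (s - a ^ 2) * psi (a ^ 2 / (2 * P)))
    (fun t _ => by
      have h := ((hasDerivAt_id t).div_const 2).sin
      exact (h.const_mul _))
    (by fun_prop) hg
  have e1 : √(2 * P) * sin (0 / 2) = 0 := by simp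
  have e2 : √(2 * P) * sin (π / 2) = √(2 * P) := by simp
  rw [e1, e2] at key
  rw [← key, ← intervalIntegral.integral_const_mul]
  refine intervalIntegral.integral_congr fun t ht => ?_
  rw [uIcc_of_le pi_pos.le] at ht
  simp only [Function.comp]
  have hc2 : cos t = 1 - 2 * sin (t / 2) ^ 2 := by
    have := cos_two_mul (t / 2)
    have h3 := sin_sq_add_cos_sq (t / 2)
    rw [mul_div_cancel₀ t (two_ne_zero)] at this
    nlinarith
  have e3 : s - P * (1 - cos t) = s - (√(2 * P) * sin (t / 2)) ^ 2 := by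
    rw [mul_pow, hq2, hc2]; ring
  have e4 : (√(2 * P) * sin (t / 2)) ^ 2 / (2 * P) = sin (t / 2) ^ 2 := by
    rw [mul_pow, hq2]; field_simp
  rw [e3, e4]
  have hcn : 0 ≤ cos (t / 2) := cos_nonneg_of_neg_pi_div_two_le_of_le
    (by linarith [ht.1, pi_pos]) (by linarith [ht.2])
  have hsq : √(1 - sin (t / 2) ^ 2) = cos (t / 2) := by
    rw [← Real.cos_sq', Real.sqrt_sq hcn]
  have e5 : psi (sin (t / 2) ^ 2) * cos (t / 2) = cos t * chi (sin (t / 2) ^ 2) := by
    rcases hcn.eq_or_lt with h0 | hpos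
    · have hs1 : sin (t / 2) ^ 2 = 1 := by
        have := sin_sq_add_cos_sq (t / 2)
        rw [← h0] at this
        linarith
      rw [← h0, hs1]
      have : chi 1 = 0 := by
        simp only [chi]
        exact Real.smoothTransition.zero_of_nonpos (by norm_num)
      simp [this]
    · rw [psi, hsq, ← hc2]
      field_simp
  rw [← e5]
  field_simp

lemma GG_line {w : ℝ → ℝ} {c s : ℝ} (hc : 0 < c) (hz : ∀ s ≤ c, w s = 0) (hs : s < 1) :
    GG w s = ∫ v : ℝ, w (s - v ^ 2) := by
  refine intervalIntegral.integral_eq_integral_of_support_subset fun v hv => ?_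
  rw [Function.mem_support] at hv
  have h1 : c < s - v ^ 2 := by
    by_contra h
    exact hv (hz _ (not_lt.1 h))
  have h2 : v ^ 2 < 1 := by linarith
  have h3 := (sq_lt_one_iff_abs_lt_one v).1 h2
  have := abs_lt.1 h3
  exact ⟨this.1, this.2.le⟩

/-- the integral over the plane in two ways -/
lemma plane (hpc : Continuous psi) (hPc : Continuous Psi) {w : ℝ → ℝ} {c P s : ℝ}
    (hw : ContinuousOn w (Iio 1))
    (hc : 0 < c) (hz : ∀ s ≤ c, w s = 0) (hP : 0 < P) (hs : s < 1) :
    ∫ a : ℝ, GG w (s - a ^ 2) * psi (a ^ 2 / (2 * P)) =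
      ∫ r in (0:ℝ)..1, r * w (s - r ^ 2) * (4 * Psi (r ^ 2 / (2 * P))) := by
  set F : ℝ × ℝ → ℝ := fun p => w (s - (p.1 ^ 2 + p.2 ^ 2)) * psi (p.1 ^ 2 / (2 * P)) with hF
  have hFc : Continuous F := (cont_w hw hs (h := fun p : ℝ × ℝ => p.1 ^ 2 + p.2 ^ 2)
    (by fun_prop) (fun p => by positivity)).mul (by fun_prop)
  have hFs : HasCompactSupport F := by
    refine HasCompactSupport.intro (K := Icc (-1) 1 ×ˢ Icc (-1) 1)
      (isCompact_Icc.prod isCompact_Icc) fun p hp => ?_
    have : w (s - (p.1 ^ 2 + p.2 ^ 2)) = 0 := by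
      by_contra hne
      have h1 : c < s - (p.1 ^ 2 + p.2 ^ 2) := by
        by_contra h
        exact hne (hz _ (not_lt.1 h))
      apply hp
      have ha : p.1 ^ 2 < 1 := by nlinarith [sq_nonneg p.2]
      have hb : p.2 ^ 2 < 1 := by nlinarith [sq_nonneg p.1]
      have h3 := abs_lt.1 ((sq_lt_one_iff_abs_lt_one _).1 ha)
      have h4 := abs_lt.1 ((sq_lt_one_iff_abs_lt_one _).1 hb)
      exact ⟨⟨h3.1.le, h3.2.le⟩, ⟨h4.1.le, h4.2.le⟩⟩
    simp [hF, this]
  have hFi : Integrable F (volume.prod volume) := hFc.integrable_of_hasCompactSupport hFs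
  have e1 : ∫ a : ℝ, GG w (s - a ^ 2) * psi (a ^ 2 / (2 * P)) = ∫ p : ℝ × ℝ, F p := by
    rw [Measure.volume_eq_prod, integral_prod _ hFi]
    refine integral_congr_ae (Filter.Eventually.of_forall fun a => ?_)
    simp only [hF]
    rw [integral_mul_const, GG_line hc hz (by nlinarith [sq_nonneg a])]
    congr 1
    refine integral_congr_ae (Filter.Eventually.of_forall fun v => ?_)
    simp only
    congr 1
    ring
  rw [e1, ← integral_comp_polarCoord_symm]
  set H : ℝ × ℝ → ℝ := fun p => p.1 * w (s - p.1 ^ 2) * psi (p.1 ^ 2 / (2 * P) * cos p.2 ^ 2)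
    with hH
  have hHc : Continuous H := by
    have h1 := cont_w hw hs (h := fun p : ℝ × ℝ => p.1 ^ 2) (by fun_prop) (fun p => by positivity)
    have h2 : Continuous fun p : ℝ × ℝ => psi (p.1 ^ 2 / (2 * P) * cos p.2 ^ 2) := by fun_prop
    exact (continuous_fst.mul h1).mul h2
  have e2 : ∀ p : ℝ × ℝ, p.1 • F (polarCoord.symm p) = H p := by
    intro p
    have h1 : (p.1 * cos p.2) ^ 2 + (p.1 * sin p.2) ^ 2 = p.1 ^ 2 := by
      have := sin_sq_add_cos_sq p.2
      nlinarith
    have h2 : (p.1 * cos p.2) ^ 2 / (2 * P) = p.1 ^ 2 / (2 * P) * cos p.2 ^ 2 := by ring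
    simp only [hF, hH, polarCoord_symm_apply, smul_eq_mul, h1, h2]
    ring
  simp_rw [e2]
  have e3 : ∫ p in polarCoord.target, H p = ∫ p in Ioc (0:ℝ) 1 ×ˢ Ioo (-π) π, H p := by
    refine setIntegral_eq_of_subset_of_forall_sdiff_eq_zero
      (measurableSet_Ioi.prod measurableSet_Ioo) ?_ ?_
    · rintro ⟨r, θ⟩ ⟨hr, hθ⟩
      exact ⟨hr.1, hθ⟩
    · rintro ⟨r, θ⟩ ⟨⟨hr, hθ⟩, hn⟩
      have h1 : 1 < r := by
        by_contra h
        exact hn ⟨⟨hr, not_lt.1 h⟩, hθ⟩
      have : w (s - r ^ 2) = 0 := hz _ (by nlinarith)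
      simp [hH, this]
  have hint : IntegrableOn H (Ioc (0:ℝ) 1 ×ˢ Ioo (-π) π) (volume.prod volume) := by
    have h1 : IntegrableOn H (Icc (0:ℝ) 1 ×ˢ Icc (-π) π) (volume.prod volume) :=
      hHc.continuousOn.integrableOn_compact (isCompact_Icc.prod isCompact_Icc)
    exact h1.mono_set (prod_mono Ioc_subset_Icc_self Ioo_subset_Icc_self)
  rw [e3, Measure.volume_eq_prod, setIntegral_prod _ hint,
    intervalIntegral.integral_of_le zero_le_one]
  refine setIntegral_congr_fun measurableSet_Ioc fun r _ => ?_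
  simp only [hH]
  rw [integral_const_mul, ← circle_psi hpc, intervalIntegral.integral_of_le (by linarith [pi_pos]),
    integral_Ioc_eq_integral_Ioo]

theorem taskOut (hPsi : TaskPsi) : TaskOut := by
  obtain ⟨h1, h2, -⟩ := hPsi
  have hpc : Continuous psi := h1.continuous
  have hPc : Continuous Psi := h2.continuous
  intro w c P s hw hc hz hP hs
  rw [subst hpc hw hP hs]
  congr 1
  set g : ℝ → ℝ := fun a => GG w (s - a ^ 2) * psi (a ^ 2 / (2 * P)) with hg
  have hq : 0 < √(2 * P) := Real.sqrt_pos.2 (by positivity)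
  have hq2 : √(2 * P) ^ 2 = 2 * P := Real.sq_sqrt (by positivity)
  have eB : ∫ a in (0:ℝ)..√(2 * P), g a = ∫ a in Ioi (0:ℝ), g a := by
    rw [intervalIntegral.integral_of_le hq.le]
    symm
    refine setIntegral_eq_of_subset_of_forall_sdiff_eq_zero measurableSet_Ioi
      Ioc_subset_Ioi_self fun a ha => ?_
    have h3 : √(2 * P) < a := by
      by_contra h
      exact ha.2 ⟨ha.1, not_lt.1 h⟩
    have h4 : 2 * P < a ^ 2 := by
      rw [← hq2]; exact pow_lt_pow_left₀ h3 hq.le two_ne_zero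
    have h5 : (1:ℝ) / 2 ≤ a ^ 2 / (2 * P) := by
      rw [le_div_iff₀ (by positivity)]
      linarith
    simp [hg, psi_zero h5]
  have eC : 2 * ∫ a in Ioi (0:ℝ), g a = ∫ a : ℝ, g a := by
    rw [← integral_comp_abs]
    refine integral_congr_ae (Filter.Eventually.of_forall fun a => ?_)
    simp [hg]
  have eD := plane hpc hPc hw hc hz hP hs
  have eE := intervalIntegral.integral_comp_mul_deriv'' (a := 0) (b := 1)
    (f := fun r : ℝ => r ^ 2) (f' := fun r => 2 * r)
    (g := fun z : ℝ => w (s - z) * Psi (z / (2 * P)))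
    (by fun_prop)
    (fun r _ => by simpa using (hasDerivAt_pow 2 r).hasDerivWithinAt)
    (by fun_prop)
    (by
      have h7 : ContinuousOn (fun z : ℝ => w (s - z)) (Ici 0) :=
        hw.comp (by fun_prop) (fun z hz' => by
          simp only [mem_Iio]
          have : (0:ℝ) ≤ z := hz'
          linarith)
      have h8 : ContinuousOn (fun z : ℝ => w (s - z) * Psi (z / (2 * P))) (Ici 0) :=
        h7.mul (by fun_prop)
      refine h8.mono ?_
      rintro _ ⟨r, -, rfl⟩
      exact sq_nonneg r)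
  have eF : ∫ r in (0:ℝ)..1, r * w (s - r ^ 2) * (4 * Psi (r ^ 2 / (2 * P))) =
      2 * ∫ z in (0:ℝ)..1, w (s - z) * Psi (z / (2 * P)) := by
    have e6 : (0:ℝ) ^ 2 = 0 := by norm_num
    have e7 : (1:ℝ) ^ 2 = 1 := by norm_num
    rw [e6, e7] at eE
    rw [← eE, ← intervalIntegral.integral_const_mul]
    refine intervalIntegral.integral_congr fun r _ => ?_
    simp only [Function.comp]
    ring
  have : 2 * ∫ a in (0:ℝ)..√(2 * P), g a = 2 * ∫ z in (0:ℝ)..1, w (s - z) * Psi (z / (2 * P)) := by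
    rw [eB, eC, ← eF, ← eD]
  linarith

end Pool.Agent.H293R3.MQ
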